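import Pool.Agent.TH279.RI.Final

/-!
MP_6bb8b9_an, Q2: the separated bump condition with two arbitrary rearrangement-invariant spaces
implies the two-weight strong type inequality for every maximal Calderon-Zygmund operator.
-/

set_option autoImplicit false

namespace Pool.Agent.Results.MP_6bb8b9_an.BumpStrong

open MeasureTheory
open scoped ENNReal NNReal
open Pool.Agent.TH279.RI

/-- Strong type two-weight separated bump theorem for maximal Calderon-Zygmund operators. -/
theorem result {d : ℕ} (hd : 0 < d) {𝕜 : Type*} [RCLike 𝕜]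
    (T : ((Fin d → ℝ) → 𝕜) → ((Fin d → ℝ) → 𝕜)) (K : (Fin d → ℝ) → (Fin d → ℝ) → 𝕜)
    (hT : IsCZOp T K) {p q : ℝ} (hpq : p.HolderConjugate q) :
    ∃ C : ℝ≥0, ∀ u σ : (Fin d → ℝ) → ℝ≥0, IsWeight u → IsWeight σ →
      ∀ X Y : RINorm d, X.opNorm q < ∞ → Y.opNorm p < ∞ → sepBump X Y p q u σ < ∞ →
      ∀ f : (Fin d → ℝ) → 𝕜, Measurable f → strongNorm p (wt σ) (fun y => ‖f y‖ₑ) < ∞ →
        (¬ (∀ᵐ x, u x = 0) → TruncConv K (wmul σ f)) ∧
        strongNorm p (wt u) (TS K (wmul σ f)) ≤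
          C * sepBump X Y p q u σ * (X.opNorm q + Y.opNorm p) *
            strongNorm p (wt σ) (fun y => ‖f y‖ₑ) :=
  strongFinal hd hpq hT

end Pool.Agent.Results.MP_6bb8b9_an.BumpStrong
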