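import Pool.Agent.TH279.RI.Final

/-!
MP_6bb8b9_an, Q1: the one-sided bump condition with an arbitrary rearrangement-invariant space
implies the two-weight weak type inequality for every maximal Calderon-Zygmund operator, with
linear dependence on the bump constant and on the norm of `M_{X'}`.
-/

set_option autoImplicit false

namespace Pool.Agent.Results.MP_6bb8b9_an.BumpWeak

open MeasureTheory
open scoped ENNReal NNReal
open Pool.Agent.TH279.RI

/-- Weak type two-weight bump theorem for maximal Calderon-Zygmund operators. -/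
theorem result {d : ℕ} (hd : 0 < d) {𝕜 : Type*} [RCLike 𝕜]
    (T : ((Fin d → ℝ) → 𝕜) → ((Fin d → ℝ) → 𝕜)) (K : (Fin d → ℝ) → (Fin d → ℝ) → 𝕜)
    (hT : IsCZOp T K) {p q : ℝ} (hpq : p.HolderConjugate q) :
    ∃ C : ℝ≥0, ∀ u σ : (Fin d → ℝ) → ℝ≥0, IsWeight u → IsWeight σ →
      ∀ X : RINorm d, X.opNorm q < ∞ → bump X p q u σ < ∞ →
      ∀ f : (Fin d → ℝ) → 𝕜, Measurable f → strongNorm p (wt σ) (fun y => ‖f y‖ₑ) < ∞ →
        (¬ (∀ᵐ x, u x = 0) → TruncConv K (wmul σ f)) ∧
        weakNorm p (wt u) (TS K (wmul σ f)) ≤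
          C * bump X p q u σ * X.opNorm q * strongNorm p (wt σ) (fun y => ‖f y‖ₑ) :=
  weakFinal hd hpq hT

end Pool.Agent.Results.MP_6bb8b9_an.BumpWeak
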